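import Pool.Agent.MNU.StmtsU
import Pool.Agent.Helper32_MNT.OTA

set_option autoImplicit false
set_option linter.unusedSectionVars false
set_option linter.unusedVariables false

/-!
# MNU, row OTE: OTA with the explicit constant (copy of Helper32_MNT/OTA.lean)
-/

namespace Pool.Agent.MNU.H13

open Polynomial Pool.Agent.MNT Pool.Agent.MNU
open Pool.Agent.MNT.H32 (grd_set lev_le FF_roots FF_ne harm_mono)

theorem ote (hT : ThnStmt) (hO : OdaStmt) : OteStmt := by
  intro M P _ _ R z hz Λ hrep e he c hc hg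
  obtain ⟨S, hSR, hSc, hodd, hsep⟩ := grd_set Λ R c hg
  set ρ := Real.exp (-Λ.lev c) with hρ
  have hρ0 : 0 < ρ := Real.exp_pos _
  set δ := ρ * Real.exp (-|M|) with hδ
  have hδ0 : 0 < δ := mul_pos hρ0 (Real.exp_pos _)
  have hδρ : δ ≤ ρ := by
    have : Real.exp (-|M|) ≤ 1 := Real.exp_le_one_iff.2 (neg_nonpos.2 (abs_nonneg M))
    calc δ ≤ ρ * 1 := mul_le_mul_of_nonneg_left this hρ0.le
      _ = ρ := mul_one _
  have hdist : ∀ p ∈ S, ∀ q ∈ R \ S, δ ≤ ‖z q - z p‖ := by
    intro p hp q hq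
    have hpq : p ≠ q := by
      rintro rfl
      exact (Finset.mem_sdiff.1 hq).2 hp
    have h1 := hrep p q hpq
    have h2 : Λ.lev {p, q} ≤ Λ.lev c := lev_le Λ c {p, q} (hsep p hp q hq)
    have h3 : 0 < ‖z q - z p‖ := by
      rw [norm_pos_iff, sub_ne_zero]
      exact fun h => hpq (hz h).symm
    have h4 : dis vC z p q = -Real.log ‖z q - z p‖ := by
      unfold dis
      rw [norm_sub_rev]
      rfl
    rw [h4] at h1
    have h5 := (abs_le.1 h1).2
    have h6 : -Λ.lev c + -|M| ≤ Real.log ‖z q - z p‖ := by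
      have := le_abs_self M
      linarith
    calc δ = Real.exp (-Λ.lev c + -|M|) := by rw [hδ, hρ, Real.exp_add]
      _ ≤ Real.exp (Real.log ‖z q - z p‖) := Real.exp_le_exp.2 h6
      _ = _ := Real.exp_log h3
  obtain ⟨S', hS', p, hp, r, hr1, hr2, hodd', hin, hout⟩ := hT P z R S δ hSR hodd hδ0 hdist
  have hcard : 0 < Fintype.card P := Fintype.card_pos_iff.2 ⟨p⟩
  have hcard1 : (1 : ℝ) ≤ Fintype.card P := by exact_mod_cast hcard
  have hb0 : (0 : ℝ) < (4 * (Fintype.card P : ℝ)) ^ S.card := by positivity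
  have hr0 : 0 < r := (div_pos hδ0 hb0).trans_le hr1
  refine ⟨p, hSc (hS' hp), ?_⟩
  intro x N U W c' hsol
  have hcnt : BHT.cnt norm (FF e R z) (z p) (r / 2) = S'.card := by
    unfold BHT.cnt
    rw [FF_roots e he R z, Multiset.countP_map, ← Finset.filter_val, Finset.card_val]
    congr 1
    ext q
    rw [Finset.mem_filter]
    constructor
    · rintro ⟨hq, hq'⟩
      by_contra hn
      have := hout q (Finset.mem_sdiff.2 ⟨hq, hn⟩)
      linarith
    · intro hq
      exact ⟨hSR (hS' hq), hin q hq⟩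
  have hroots : ∀ α ∈ (FF e R z).roots, ‖α - z p‖ ≤ r / 2 ∨ r ≤ ‖α - z p‖ := by
    intro α hα
    rw [FF_roots e he R z, Multiset.mem_map] at hα
    obtain ⟨q, hq, rfl⟩ := hα
    by_cases h : q ∈ S'
    · exact Or.inl (hin q h)
    · exact Or.inr (hout q (Finset.mem_sdiff.2 ⟨hq, h⟩))
  have hH := hO (FF e R z) x N U W c' (FF_ne e he R z) hsol (z p) r hr0 (hcnt ▸ hodd') hroots
  refine harm_mono vC U.roots x (z p) r ρ _ _ hr0 (hr2.trans hδρ) ?_ hH
  have h7 : ρ / r ≤ Real.exp |M| * (4 * (Fintype.card P : ℝ)) ^ S.card := by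
    rw [div_le_iff₀ hr0]
    have h8 : δ ≤ r * (4 * (Fintype.card P : ℝ)) ^ S.card := (div_le_iff₀ hb0).1 hr1
    have h9 : ρ = δ * Real.exp |M| := by
      rw [hδ, mul_assoc, ← Real.exp_add]
      simp
    calc ρ = δ * Real.exp |M| := h9
      _ ≤ (r * (4 * (Fintype.card P : ℝ)) ^ S.card) * Real.exp |M| :=
        mul_le_mul_of_nonneg_right h8 (Real.exp_pos _).le
      _ = _ := by ring
  have h10 : Real.log (ρ / r) ≤ |M| + S.card * Real.log (4 * (Fintype.card P : ℝ)) := by
    calc Real.log (ρ / r) ≤ Real.log (Real.exp |M| * (4 * (Fintype.card P : ℝ)) ^ S.card) :=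
          Real.log_le_log (div_pos hρ0 hr0) h7
      _ = _ := by
        rw [Real.log_mul (Real.exp_pos _).ne' hb0.ne', Real.log_exp, Real.log_pow]
  have hSn : (S.card : ℝ) ≤ Fintype.card P := by
    exact_mod_cast Finset.card_le_univ S
  have h12 : 0 ≤ Real.log (4 * (Fintype.card P : ℝ)) := Real.log_nonneg (by linarith)
  have h13 : (S.card : ℝ) * Real.log (4 * (Fintype.card P : ℝ)) ≤
      (Fintype.card P : ℝ) * Real.log (4 * (Fintype.card P : ℝ)) :=
    mul_le_mul_of_nonneg_right hSn h12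
  linarith

end Pool.Agent.MNU.H13
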